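import Mathlib

/-!
Rational solutions of the functional equation `f_{mn}(q) = f_m(q) f_n(q^m)` with support `S(P)`:
all of them are quotients of polynomial solutions with support `S(P)` exactly when the set of
primes `P` has at most one element.
-/

open Polynomial

namespace Pool.Agent.Results.MP_bcdf42_nt.AtMostOnePrime

/-- `n` lies in the multiplicative semigroup `S(P)` generated by the primes of `P`. -/
def InS (P : Set ℕ) (n : ℕ+) : Prop := ∀ p : ℕ, p.Prime → p ∣ (n : ℕ) → p ∈ P

/-- The substitution `q ↦ q ^ m` on rational functions. -/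
noncomputable def subst (m : ℕ+) : RatFunc ℂ →+* RatFunc ℂ :=
  RatFunc.mapRingHom (Polynomial.expand ℂ (m : ℕ)) (by
    intro x hx
    rw [Submonoid.mem_comap, mem_nonZeroDivisors_iff_ne_zero]
    exact (Polynomial.expand_ne_zero m.pos).2 (nonZeroDivisors.ne_zero hx))

/-- `F` is a sequence of polynomials with support exactly `S(P)` satisfying the functional
equation `F_{mn}(q) = F_m(q) F_n(q ^ m)`; `Polynomial.expand ℂ m` is the substitution
`q ↦ q ^ m`. -/
def PolySol (P : Set ℕ) (F : ℕ+ → ℂ[X]) : Prop :=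
  (∀ m n : ℕ+, F (m * n) = F m * Polynomial.expand ℂ (m : ℕ) (F n)) ∧
    ∀ n : ℕ+, F n ≠ 0 ↔ InS P n

/-- `f` is a sequence of rational functions with support exactly `S(P)` satisfying the functional
equation `f_{mn}(q) = f_m(q) f_n(q ^ m)`. -/
def RatSol (P : Set ℕ) (f : ℕ+ → RatFunc ℂ) : Prop :=
  (∀ m n : ℕ+, f (m * n) = f m * subst m (f n)) ∧ ∀ n : ℕ+, f n ≠ 0 ↔ InS P n

/-- `f` is a termwise quotient of two polynomial solutions with support `S(P)`. -/
def IsQuot (P : Set ℕ) (f : ℕ+ → RatFunc ℂ) : Prop :=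
  ∃ F G : ℕ+ → ℂ[X], PolySol P F ∧ PolySol P G ∧
    ∀ n : ℕ+, (InS P n → f n = algebraMap ℂ[X] (RatFunc ℂ) (F n) /
      algebraMap ℂ[X] (RatFunc ℂ) (G n)) ∧ (¬ InS P n → f n = 0)

theorem subst_algebraMap (m : ℕ+) (u : ℂ[X]) :
    subst m (algebraMap ℂ[X] (RatFunc ℂ) u) =
      algebraMap ℂ[X] (RatFunc ℂ) (Polynomial.expand ℂ (m : ℕ) u) := by
  have h := RatFunc.map_apply_div (R := ℂ) (K := ℂ) (Polynomial.expand ℂ (m : ℕ)) (by
    intro x hx
    rw [Submonoid.mem_comap, mem_nonZeroDivisors_iff_ne_zero]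
    exact (Polynomial.expand_ne_zero m.pos).2 (nonZeroDivisors.ne_zero hx)) u 1
  simp only [map_one, div_one] at h
  exact h

theorem inS_mul (P : Set ℕ) (m n : ℕ+) : InS P (m * n) ↔ InS P m ∧ InS P n := by
  constructor
  · intro h
    refine ⟨fun p hp hd => h p hp ?_, fun p hp hd => h p hp ?_⟩
    · rw [PNat.mul_coe]; exact Dvd.dvd.mul_right hd _
    · rw [PNat.mul_coe]; exact Dvd.dvd.mul_left hd _
  · rintro ⟨h1, h2⟩ p hp hd
    rw [PNat.mul_coe] at hd
    rcases (hp.dvd_mul).1 hd with h | h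
    · exact h1 p hp h
    · exact h2 p hp h

theorem inS_pow (P : Set ℕ) (m : ℕ+) (h : InS P m) (k : ℕ) : InS P (m ^ k) := by
  intro p hp hd
  rw [PNat.pow_coe] at hd
  exact h p hp (hp.dvd_of_dvd_pow hd)

theorem inS_prime (P : Set ℕ) (p : ℕ+) (hp : (p : ℕ).Prime) (hP : (p : ℕ) ∈ P) : InS P p := by
  intro q hq hd
  rw [(Nat.prime_dvd_prime_iff_eq hq hp).1 hd]
  exact hP

/-- A polynomial solution whose support contains two different primes `p`, `r` has
`G_p(2) ≠ 0`. -/
theorem eval_two_ne_zero (P : Set ℕ) (G : ℕ+ → ℂ[X]) (hG : PolySol P G) (p r : ℕ+)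
    (hp : (p : ℕ).Prime) (hr : (r : ℕ).Prime) (hpr : (p : ℕ) ≠ r) (hpP : (p : ℕ) ∈ P)
    (hrP : (r : ℕ) ∈ P) : (G p).eval 2 ≠ 0 := by
  intro h0
  obtain ⟨hfe, hsupp⟩ := hG
  have hSp : InS P p := inS_prime P p hp hpP
  have hSr : InS P r := inS_prime P r hr hrP
  -- the real roots `w k` of `2`
  let w : ℕ → ℝ := fun k => (2 : ℝ) ^ ((((p : ℕ) ^ k : ℕ) : ℝ)⁻¹)
  have hppos : ∀ k, ((p : ℕ) ^ k) ≠ 0 := fun k => pow_ne_zero _ hp.ne_zero
  have hw : ∀ k, (w k) ^ ((p : ℕ) ^ k) = 2 := fun k =>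
    Real.rpow_inv_natCast_pow (by norm_num) (hppos k)
  have hw1 : ∀ k, 1 < w k := by
    intro k
    apply Real.one_lt_rpow (by norm_num)
    positivity
  have hwC : ∀ k, ((w k : ℂ)) ^ ((p : ℕ) ^ k) = 2 := by
    intro k
    rw [← Complex.ofReal_pow, hw k]; norm_num
  -- step 1
  have step1 : ∀ k, (G (p ^ (k + 1))).eval (w k : ℂ) = 0 := by
    intro k
    rw [pow_succ, hfe, eval_mul, Polynomial.expand_eval, PNat.pow_coe, hwC k, h0, mul_zero]
  -- step 2
  have step2 : ∀ k l, (G (r ^ l)).eval (w k : ℂ) *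
      (G (p ^ (k + 1))).eval ((w k : ℂ) ^ ((r : ℕ) ^ l)) = 0 := by
    intro k l
    have e1 := hfe (p ^ (k + 1)) (r ^ l)
    have e2 := hfe (r ^ l) (p ^ (k + 1))
    rw [mul_comm] at e1
    have e := e2.symm.trans e1
    have e' := congrArg (fun u => u.eval (w k : ℂ)) e
    simp only [eval_mul, Polynomial.expand_eval, PNat.pow_coe] at e'
    rw [step1 k, zero_mul] at e'
    exact e'
  -- step 3
  have step3 : ∀ k, ∃ l, (G (p ^ (k + 1))).eval ((w k : ℂ) ^ ((r : ℕ) ^ l)) ≠ 0 := by
    intro k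
    by_contra hcon
    push Not at hcon
    have hinj : Function.Injective (fun l : ℕ => (w k : ℂ) ^ ((r : ℕ) ^ l)) := by
      intro a b hab
      have hab' : (w k) ^ ((r : ℕ) ^ a) = (w k) ^ ((r : ℕ) ^ b) := by
        have : (((w k) ^ ((r : ℕ) ^ a) : ℝ) : ℂ) = (((w k) ^ ((r : ℕ) ^ b) : ℝ) : ℂ) := by
          rw [Complex.ofReal_pow, Complex.ofReal_pow]; exact hab
        exact_mod_cast this
      have h1 := (pow_right_strictMono₀ (hw1 k)).injective hab'
      exact Nat.pow_right_injective hr.two_le h1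
    have hz : G (p ^ (k + 1)) = 0 := by
      apply Polynomial.eq_zero_of_infinite_isRoot
      apply Set.Infinite.mono _ (Set.infinite_range_of_injective hinj)
      rintro _ ⟨l, rfl⟩
      exact hcon l
    exact (hsupp _).2 (inS_pow P p hSp _) hz
  -- step 4
  have step4 : ∀ (l : ℕ) (z : ℂ), (G (r ^ l)).eval z = 0 →
      ∃ j, (G r).eval (z ^ ((r : ℕ) ^ j)) = 0 := by
    intro l
    induction l with
    | zero =>
      intro z hz
      exfalso
      rw [pow_zero] at hz
      have h1 : G 1 = G 1 * G 1 := by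
        have := hfe 1 1
        rwa [mul_one, PNat.one_coe, Polynomial.expand_one] at this
      have hne : G 1 ≠ 0 := (hsupp 1).2 (by
        intro q hq hd
        rw [PNat.one_coe] at hd
        exact absurd (Nat.dvd_one.1 hd) hq.one_lt.ne')
      have h2 : G 1 = 1 := by
        have : G 1 * 1 = G 1 * G 1 := by rw [mul_one]; exact h1
        exact (mul_left_cancel₀ hne this).symm
      rw [h2, eval_one] at hz
      exact one_ne_zero hz
    | succ l ih =>
      intro z hz
      rw [pow_succ, hfe, eval_mul, Polynomial.expand_eval, PNat.pow_coe] at hz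
      rcases mul_eq_zero.1 hz with h | h
      · exact ih z h
      · exact ⟨l, h⟩
  have step5 : ∀ k, ∃ j, (G r).eval ((w k : ℂ) ^ ((r : ℕ) ^ j)) = 0 := by
    intro k
    obtain ⟨l, hl⟩ := step3 k
    have := step2 k l
    rcases mul_eq_zero.1 this with h | h
    · exact step4 l _ h
    · exact absurd h hl
  choose j hj using step5
  -- the roots found are pairwise distinct
  have hinj : Function.Injective (fun k : ℕ => (w k : ℂ) ^ ((r : ℕ) ^ (j k))) := by
    have key : ∀ a b : ℕ, a < b →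
        (w a : ℂ) ^ ((r : ℕ) ^ (j a)) ≠ (w b : ℂ) ^ ((r : ℕ) ^ (j b)) := by
      intro a b hab heq
      have h1 := congrArg (fun z : ℂ => z ^ ((p : ℕ) ^ b)) heq
      have l1 : ((w a : ℂ) ^ ((r : ℕ) ^ (j a))) ^ ((p : ℕ) ^ b) =
          2 ^ ((p : ℕ) ^ (b - a) * (r : ℕ) ^ (j a)) := by
        rw [← pow_mul]
        have : (r : ℕ) ^ (j a) * (p : ℕ) ^ b =
            (p : ℕ) ^ a * ((p : ℕ) ^ (b - a) * (r : ℕ) ^ (j a)) := by
          have h2 : (p : ℕ) ^ b = (p : ℕ) ^ a * (p : ℕ) ^ (b - a) := by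
            rw [← pow_add]; congr 1; omega
          rw [h2]; ring
        rw [this, pow_mul, hwC a]
      have l2 : ((w b : ℂ) ^ ((r : ℕ) ^ (j b))) ^ ((p : ℕ) ^ b) = 2 ^ ((r : ℕ) ^ (j b)) := by
        rw [← pow_mul, mul_comm, pow_mul, hwC b]
      rw [l1, l2] at h1
      have h3 : (2 : ℕ) ^ ((p : ℕ) ^ (b - a) * (r : ℕ) ^ (j a)) = 2 ^ ((r : ℕ) ^ (j b)) := by
        exact_mod_cast h1
      have h4 := Nat.pow_right_injective (le_refl 2) h3
      have h5 : (p : ℕ) ∣ (r : ℕ) ^ (j b) := by
        rw [← h4]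
        apply Dvd.dvd.mul_right
        exact dvd_pow_self _ (by omega)
      have h6 := hp.dvd_of_dvd_pow h5
      exact hpr ((Nat.prime_dvd_prime_iff_eq hp hr).1 h6)
    intro a b hab
    rcases lt_trichotomy a b with h | h | h
    · exact absurd hab (key a b h)
    · exact h
    · exact absurd hab.symm (key b a h)
  have hz : G r = 0 := by
    apply Polynomial.eq_zero_of_infinite_isRoot
    apply Set.Infinite.mono _ (Set.infinite_range_of_injective hinj)
    rintro _ ⟨k, rfl⟩
    exact hj k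
  exact (hsupp _).2 hSr hz

open Classical in
/-- The rational solution `(q ^ n - 2) / (q - 2)` with support `S(P)`. -/
noncomputable def cob (P : Set ℕ) (n : ℕ+) : RatFunc ℂ :=
  if InS P n then subst n (algebraMap ℂ[X] (RatFunc ℂ) (X - C 2)) /
    algebraMap ℂ[X] (RatFunc ℂ) (X - C 2) else 0

theorem g_ne : algebraMap ℂ[X] (RatFunc ℂ) (X - C 2) ≠ 0 := by
  rw [Ne, FaithfulSMul.algebraMap_eq_zero_iff]
  exact X_sub_C_ne_zero 2

theorem cob_ratSol (P : Set ℕ) : RatSol P (cob P) := by
  constructor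
  · intro m n
    by_cases h : InS P (m * n)
    · obtain ⟨h1, h2⟩ := (inS_mul P m n).1 h
      rw [cob, cob, cob, if_pos h, if_pos h1, if_pos h2, map_div₀, subst_algebraMap,
        subst_algebraMap, subst_algebraMap, subst_algebraMap, Polynomial.expand_expand,
        PNat.mul_coe]
      have hne : algebraMap ℂ[X] (RatFunc ℂ) (Polynomial.expand ℂ (m : ℕ) (X - C 2)) ≠ 0 := by
        rw [Ne, FaithfulSMul.algebraMap_eq_zero_iff]
        exact (Polynomial.expand_ne_zero m.pos).2 (X_sub_C_ne_zero 2)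
      have := g_ne
      field_simp
    · rw [cob, if_neg h]
      by_cases h1 : InS P m
      · have h2 : ¬ InS P n := fun h2 => h ((inS_mul P m n).2 ⟨h1, h2⟩)
        rw [cob, cob, if_neg h2, map_zero, mul_zero]
      · rw [cob, cob, if_neg h1, zero_mul]
  · intro n
    constructor
    · intro h
      by_contra hn
      exact h (by rw [cob, if_neg hn])
    · intro h
      rw [cob, if_pos h, subst_algebraMap]
      apply div_ne_zero _ g_ne
      rw [Ne, FaithfulSMul.algebraMap_eq_zero_iff]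
      exact (Polynomial.expand_ne_zero n.pos).2 (X_sub_C_ne_zero 2)

theorem not_isQuot (P : Set ℕ) (p r : ℕ+) (hp : (p : ℕ).Prime) (hr : (r : ℕ).Prime)
    (hpr : (p : ℕ) ≠ r) (hpP : (p : ℕ) ∈ P) (hrP : (r : ℕ) ∈ P) : ¬ IsQuot P (cob P) := by
  rintro ⟨F, G, hF, hG, h⟩
  have hSp := inS_prime P p hp hpP
  have h1 := (h p).1 hSp
  rw [cob, if_pos hSp, subst_algebraMap] at h1
  have hGp : G p ≠ 0 := (hG.2 p).2 hSp
  have hGp' : algebraMap ℂ[X] (RatFunc ℂ) (G p) ≠ 0 := by
    rw [Ne, FaithfulSMul.algebraMap_eq_zero_iff]; exact hGp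
  rw [div_eq_div_iff g_ne hGp', ← map_mul, ← map_mul] at h1
  have h2 := (FaithfulSMul.algebraMap_injective ℂ[X] (RatFunc ℂ)) h1
  have h3 := congrArg (fun u => u.eval (2 : ℂ)) h2
  simp only [eval_mul, Polynomial.expand_eval, eval_sub, eval_X, eval_C, sub_self,
    mul_zero] at h3
  rcases mul_eq_zero.1 h3 with h4 | h4
  · have h5 : (2 : ℂ) ^ (p : ℕ) = 2 ^ 1 := by rw [pow_one]; exact sub_eq_zero.1 h4
    have h6 : (2 : ℕ) ^ (p : ℕ) = 2 ^ 1 := by exact_mod_cast h5
    have h7 := Nat.pow_right_injective (le_refl 2) h6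
    exact hp.one_lt.ne' h7
  · exact eval_two_ne_zero P G hG p r hp hr hpr hpP hrP h4

/-- The polynomial solution `∏_{i < k} u(q ^ (p ^ i))` at `n = p ^ k`. -/
noncomputable def chain (p : ℕ) (u : ℂ[X]) (n : ℕ+) : ℂ[X] :=
  if (n : ℕ) = p ^ (padicValNat p n) then
    ∏ i ∈ Finset.range (padicValNat p n), Polynomial.expand ℂ (p ^ i) u else 0

theorem inS_singleton_iff (p : ℕ) (hp : p.Prime) (n : ℕ+) :
    InS {p} n ↔ (n : ℕ) = p ^ (padicValNat p n) := by
  constructor
  · intro h
    have h1 : (n : ℕ) = p ^ (n : ℕ).primeFactorsList.length := by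
      apply Nat.eq_prime_pow_of_unique_prime_dvd n.pos.ne'
      intro d hd hdn
      exact h d hd hdn
    have h2 : padicValNat p n = (n : ℕ).primeFactorsList.length := by
      haveI := Fact.mk hp
      conv_lhs => rw [h1]
      exact padicValNat.prime_pow _
    rw [h2]; exact h1
  · intro h q hq hd
    rw [h] at hd
    have := hq.dvd_of_dvd_pow hd
    exact (Nat.prime_dvd_prime_iff_eq hq hp).1 this

theorem chain_polySol (p : ℕ) (hp : p.Prime) (u : ℂ[X]) (hu : u ≠ 0) :
    PolySol {p} (chain p u) := by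
  have := Fact.mk hp
  constructor
  · intro m n
    by_cases h : InS {p} (m * n)
    · obtain ⟨h1, h2⟩ := (inS_mul {p} m n).1 h
      rw [inS_singleton_iff p hp] at h h1 h2
      have hv : padicValNat p ((m * n : ℕ+) : ℕ) = padicValNat p m + padicValNat p n := by
        rw [PNat.mul_coe]; exact padicValNat.mul m.pos.ne' n.pos.ne'
      rw [chain, chain, chain, if_pos h, if_pos h1, if_pos h2, hv, Finset.prod_range_add,
        map_prod]
      congr 1
      apply Finset.prod_congr rfl
      intro i _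
      rw [Polynomial.expand_expand]
      congr 1
      conv_rhs => rw [h1]
      rw [pow_add]
    · have h' := h
      rw [inS_singleton_iff p hp] at h'
      rw [chain, if_neg h']
      by_cases h1 : InS {p} m
      · have h2 : ¬ InS {p} n := fun h2 => h ((inS_mul {p} m n).2 ⟨h1, h2⟩)
        rw [inS_singleton_iff p hp] at h2
        rw [chain, chain, if_neg h2, map_zero, mul_zero]
      · rw [inS_singleton_iff p hp] at h1
        rw [chain, chain, if_neg h1, zero_mul]
  · intro n
    rw [inS_singleton_iff p hp]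
    constructor
    · intro h
      by_contra hn
      exact h (by rw [chain, if_neg hn])
    · intro h
      rw [chain, if_pos h]
      apply Finset.prod_ne_zero_iff.2
      intro i _
      exact (Polynomial.expand_ne_zero (pow_pos hp.pos i)).2 hu

theorem f_one (P : Set ℕ) (f : ℕ+ → RatFunc ℂ) (hf : RatSol P f) : f 1 = 1 := by
  have hne : f 1 ≠ 0 := (hf.2 1).2 (by
    intro q hq hd
    rw [PNat.one_coe] at hd
    exact absurd (Nat.dvd_one.1 hd) hq.one_lt.ne')
  have h1 := hf.1 1 1
  rw [mul_one] at h1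
  have h2 : f 1 * 1 = f 1 * subst 1 (f 1) := by rw [mul_one]; exact h1
  have h3 := mul_left_cancel₀ hne h2
  have h4 : subst 1 1 = subst 1 (f 1) := by rw [map_one]; exact h3
  exact ((subst 1).injective h4).symm

theorem isQuot_singleton (p : ℕ) (hp : p.Prime) (f : ℕ+ → RatFunc ℂ) (hf : RatSol {p} f) :
    IsQuot {p} f := by
  have := Fact.mk hp
  let P : ℕ+ := ⟨p, hp.pos⟩
  have hSP : InS {p} P := inS_prime {p} P hp rfl
  have hfP : f P ≠ 0 := (hf.2 P).2 hSP
  have hu : (f P).num ≠ 0 := RatFunc.num_ne_zero hfP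
  have hv : (f P).denom ≠ 0 := RatFunc.denom_ne_zero _
  refine ⟨chain p (f P).num, chain p (f P).denom, chain_polySol p hp _ hu,
    chain_polySol p hp _ hv, ?_⟩
  intro n
  refine ⟨fun hn => ?_, fun hn => by_contra fun h => hn ((hf.2 n).1 h)⟩
  have hn' := (inS_singleton_iff p hp n).1 hn
  rw [chain, chain, if_pos hn', if_pos hn']
  have hpow : ∀ k : ℕ, f (P ^ k) = algebraMap ℂ[X] (RatFunc ℂ)
      (∏ i ∈ Finset.range k, Polynomial.expand ℂ (p ^ i) (f P).num) /
      algebraMap ℂ[X] (RatFunc ℂ)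
      (∏ i ∈ Finset.range k, Polynomial.expand ℂ (p ^ i) (f P).denom) := by
    intro k
    induction k with
    | zero => rw [pow_zero, f_one {p} f hf]; simp
    | succ k ih =>
      rw [pow_succ, hf.1, ih, Finset.prod_range_succ, Finset.prod_range_succ, map_mul, map_mul,
        mul_div_mul_comm]
      congr 1
      conv_lhs => rw [← RatFunc.num_div_denom (f P)]
      rw [map_div₀, subst_algebraMap, subst_algebraMap, PNat.pow_coe]
      rfl
  have hnk : n = P ^ (padicValNat p n) := by
    apply PNat.coe_injective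
    rw [PNat.pow_coe]
    exact hn'
  conv_lhs => rw [hnk]
  exact hpow _

theorem isQuot_empty (f : ℕ+ → RatFunc ℂ) (hf : RatSol ∅ f) : IsQuot ∅ f := by
  have hS : ∀ n : ℕ+, InS ∅ n ↔ n = 1 := by
    intro n
    constructor
    · intro h
      by_contra hn
      have hn1 : (n : ℕ) ≠ 1 := fun h1 => hn (PNat.coe_injective (by rw [h1]; rfl))
      obtain ⟨q, hq, hd⟩ := Nat.exists_prime_and_dvd hn1
      exact h q hq hd
    · rintro rfl q hq hd
      rw [PNat.one_coe] at hd
      exact absurd (Nat.dvd_one.1 hd) hq.one_lt.ne'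
  have hsol : PolySol ∅ (fun n : ℕ+ => if n = 1 then (1 : ℂ[X]) else 0) := by
    constructor
    · intro m n
      by_cases hm : m = 1
      · subst hm
        simp only [one_mul, if_true, PNat.one_coe, Polynomial.expand_one]
      · have hmn : m * n ≠ 1 := by
          intro h
          apply hm
          have h1 : (m : ℕ) * n = 1 := by rw [← PNat.mul_coe, h]; rfl
          exact PNat.coe_injective (Nat.eq_one_of_mul_eq_one_right h1)
        simp only [hm, hmn, if_false, zero_mul]
    · intro n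
      rw [hS]
      by_cases hn : n = 1 <;> simp [hn]
  refine ⟨_, _, hsol, hsol, fun n => ⟨fun hn => ?_, fun hn => by_contra fun h => hn ((hf.2 n).1 h)⟩⟩
  have h1 := (hS n).1 hn
  subst h1
  rw [f_one ∅ f hf]
  simp

/-- For a set `P` of primes, every sequence of rational functions with support `S(P)` that
satisfies the functional equation is a quotient of two polynomial solutions with support `S(P)`
if and only if `P` has at most one element. -/
theorem result (P : Set ℕ) (hP : ∀ p ∈ P, p.Prime) :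
    (∀ f : ℕ+ → RatFunc ℂ, RatSol P f → IsQuot P f) ↔ P.Subsingleton := by
  constructor
  · intro h p hp r hr
    by_contra hpr
    exact not_isQuot P ⟨p, (hP p hp).pos⟩ ⟨r, (hP r hr).pos⟩ (hP p hp) (hP r hr) hpr hp hr
      (h _ (cob_ratSol P))
  · intro h f hf
    rcases h.eq_empty_or_singleton with h0 | ⟨p, h1⟩
    · subst h0
      exact isQuot_empty f hf
    · subst h1
      exact isQuot_singleton p (hP p rfl) f hf

end Pool.Agent.Results.MP_bcdf42_nt.AtMostOnePrime
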